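import Mathlib

/-! Families of self-maps which are submersive in the parameters (helper70). -/

set_option autoImplicit false

open Filter Topology

namespace Pool.Agent.R70.OC

/-- Let `Φ` be a family of self-maps of `{p = 0}` with parameters in `E`, with `Φ(t₀, T) = T`,
submersive at `t₀`. Then all `y` on `{p = 0}` near `T` are of the form `Φ(t, x)` with `t` near
`t₀`, for all `x` on `{p = 0}` near `T`. -/
theorem solve {𝕜 E F G : Type} [NontriviallyNormedField 𝕜] [NormedAddCommGroup E]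
    [NormedSpace 𝕜 E] [NormedAddCommGroup F] [NormedSpace 𝕜 F] [NormedAddCommGroup G]
    [NormedSpace 𝕜 G] [CompleteSpace E] [CompleteSpace F] [CompleteSpace G]
    (Φ : E × F → F) (Φ' : E × F →L[𝕜] F) (t₀ : E) (T : F) (hΦ : HasStrictFDerivAt Φ Φ' (t₀, T))
    (hT : Φ (t₀, T) = T) (p : F → G) (J : F →L[𝕜] G) (hp : HasStrictFDerivAt p J T)
    (s : G →L[𝕜] F) (hs : ∀ r, J (s r) = r)
    (hspan : ∀ w, J w = 0 → ∃ τ, Φ' (τ, 0) = w) :
    ∀ W ∈ 𝓝 (t₀, T), ∃ U ∈ 𝓝 T, ∀ x ∈ U, ∀ y ∈ U, p y = 0 →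
      (∀ t, (t, x) ∈ W → p (Φ (t, x)) = 0) → ∃ t, (t, x) ∈ W ∧ Φ (t, x) = y := by
  intro W hW
  let i : E × F × G →L[𝕜] E × F :=
    (ContinuousLinearMap.fst 𝕜 E (F × G)).prod
      ((ContinuousLinearMap.fst 𝕜 F G).comp (ContinuousLinearMap.snd 𝕜 E (F × G)))
  let r : E × F × G →L[𝕜] G :=
    (ContinuousLinearMap.snd 𝕜 F G).comp (ContinuousLinearMap.snd 𝕜 E (F × G))
  let q : E × F × G →L[𝕜] F :=
    (ContinuousLinearMap.fst 𝕜 F G).comp (ContinuousLinearMap.snd 𝕜 E (F × G))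
  have hi : ∀ a, i a = (a.1, a.2.1) := fun a => rfl
  have hr : ∀ a, r a = a.2.2 := fun a => rfl
  have hq : ∀ a, q a = a.2.1 := fun a => rfl
  let C : E × F × G → F × F := fun a => (Φ (i a) + s (r a), q a)
  let C' : E × F × G →L[𝕜] F × F := (Φ'.comp i + s.comp r).prod q
  have hC : HasStrictFDerivAt C C' (t₀, T, 0) := by
    refine HasStrictFDerivAt.prodMk ?_ q.hasStrictFDerivAt
    refine HasStrictFDerivAt.add ?_ (s.comp r).hasStrictFDerivAt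
    exact HasStrictFDerivAt.comp (t₀, T, (0 : G)) (g := Φ) (f := i) hΦ i.hasStrictFDerivAt
  have hsurj : C'.range = ⊤ := by
    rw [eq_top_iff]
    rintro ⟨w, ξ⟩ -
    have h1 : J ((w - Φ' (0, ξ)) - s (J (w - Φ' (0, ξ)))) = 0 := by
      rw [map_sub, hs, sub_self]
    obtain ⟨τ, hτ⟩ := hspan _ h1
    refine ⟨(τ, ξ, J (w - Φ' (0, ξ))), ?_⟩
    change (Φ' (τ, ξ) + s (J (w - Φ' (0, ξ))), ξ) = (w, ξ)
    have h2 : Φ' (τ, ξ) = Φ' (τ, 0) + Φ' (0, ξ) := by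
      rw [← map_add, Prod.mk_add_mk, add_zero, zero_add]
    rw [h2, hτ]
    congr 1
    abel
  have hmap := hC.map_nhds_eq_of_surj hsurj
  have hCT : C (t₀, T, 0) = (T, T) := by
    change (Φ (t₀, T) + s 0, T) = (T, T)
    rw [map_zero, add_zero, hT]
  rw [hCT] at hmap
  -- strict differentiability of `p`
  obtain ⟨ε, hε, hεs⟩ : ∃ ε : ℝ, 0 < ε ∧ ε * ‖s‖ < 1 := by
    refine ⟨1 / (‖s‖ + 1), by positivity, ?_⟩
    rw [div_mul_eq_mul_div, one_mul, div_lt_one (by positivity)]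
    linarith
  have hp1 := hp.isLittleO.def hε
  have hcC : ContinuousAt C (t₀, T, 0) := hC.continuousAt
  have hc1 : ContinuousAt (fun a : E × F × G => (Φ (i a) + s (r a), Φ (i a))) (t₀, T, 0) := by
    refine ContinuousAt.prodMk ?_ ?_
    · exact (continuous_fst.continuousAt).comp hcC
    · exact ContinuousAt.comp (f := i) (g := Φ) hΦ.continuousAt i.continuous.continuousAt
  have hc2 : (Φ (i (t₀, T, 0)) + s (r (t₀, T, 0)), Φ (i (t₀, T, 0))) = (T, T) := by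
    change (Φ (t₀, T) + s 0, Φ (t₀, T)) = (T, T)
    rw [map_zero, add_zero, hT]
  have hV : {a : E × F × G | i a ∈ W ∧
      ‖p (Φ (i a) + s (r a)) - p (Φ (i a)) - J (Φ (i a) + s (r a) - Φ (i a))‖ ≤
        ε * ‖Φ (i a) + s (r a) - Φ (i a)‖} ∈ 𝓝 (t₀, T, (0 : G)) := by
    refine Filter.inter_mem ?_ ?_
    · exact i.continuous.continuousAt hW
    · have h1 : Tendsto (fun a : E × F × G => (Φ (i a) + s (r a), Φ (i a))) (𝓝 (t₀, T, 0))
          (𝓝 (T, T)) := by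
        have h2 := hc1.tendsto
        rwa [hc2] at h2
      exact h1 hp1
  have hV2 := Filter.image_mem_map (m := C) hV
  rw [hmap, nhds_prod_eq] at hV2
  obtain ⟨A, hA, B, hB, hAB⟩ := Filter.mem_prod_iff.1 hV2
  refine ⟨A ∩ B, Filter.inter_mem hA hB, fun x hx y hy hpy hpres => ?_⟩
  obtain ⟨⟨t, x', ρ⟩, ⟨hW1, hle⟩, heq⟩ := hAB (Set.mk_mem_prod hy.1 hx.2)
  have hx' : x' = x := congrArg Prod.snd heq
  subst hx'
  have hy' : Φ (t, x') + s ρ = y := congrArg Prod.fst heq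
  have hle' : ‖p (Φ (t, x') + s ρ) - p (Φ (t, x')) - J (Φ (t, x') + s ρ - Φ (t, x'))‖ ≤
      ε * ‖Φ (t, x') + s ρ - Φ (t, x')‖ := hle
  rw [hy', hpy, hpres t hW1, sub_zero, zero_sub, norm_neg, ← hy', add_sub_cancel_left, hs] at hle'
  have hρ : ρ = 0 := by
    by_contra hne
    have h1 : 0 < ‖ρ‖ := norm_pos_iff.2 hne
    have h2 : ‖s ρ‖ ≤ ‖s‖ * ‖ρ‖ := s.le_opNorm ρ
    have h3 : ε * ‖s ρ‖ ≤ ε * ‖s‖ * ‖ρ‖ := by
      rw [mul_assoc]
      exact mul_le_mul_of_nonneg_left h2 hε.le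
    have h4 : ε * ‖s‖ * ‖ρ‖ < 1 * ‖ρ‖ := mul_lt_mul_of_pos_right hεs h1
    linarith
  refine ⟨t, hW1, ?_⟩
  rw [← hy', hρ, map_zero, add_zero]

end Pool.Agent.R70.OC
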