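import Mathlib
import Pool.Agent.R70.OC.Loc

/-! Polynomial maps over normed fields (helper70). -/

set_option autoImplicit false

open Filter Topology MvPolynomial

namespace Pool.Agent.R70.OC

section

variable {L : Type} [NontriviallyNormedField L] {ι : Type} [Fintype ι]

/-- the differential of a polynomial -/
noncomputable def grad (p : MvPolynomial ι L) (x : ι → L) : (ι → L) →L[L] L :=
  ∑ i, (eval x (pderiv i p)) • ContinuousLinearMap.proj i

theorem grad_apply (p : MvPolynomial ι L) (x w : ι → L) :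
    grad p x w = ∑ i, eval x (pderiv i p) * w i := by
  simp [grad]

theorem hasStrictFDerivAt_eval (p : MvPolynomial ι L) (x : ι → L) :
    HasStrictFDerivAt (fun y : ι → L => eval y p) (grad p x) x := by
  classical
  induction p using MvPolynomial.induction_on with
  | C a =>
    have h : grad (C a : MvPolynomial ι L) x = 0 := by
      ext w
      rw [grad_apply]
      simp
    rw [h]
    simp only [eval_C]
    exact hasStrictFDerivAt_const a x
  | add p q hp hq =>
    have h : grad (p + q) x = grad p x + grad q x := by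
      ext w
      rw [ContinuousLinearMap.add_apply, grad_apply, grad_apply, grad_apply,
        ← Finset.sum_add_distrib]
      refine Finset.sum_congr rfl fun i _ => ?_
      rw [map_add, map_add, add_mul]
    rw [h]
    simp only [map_add]
    exact hp.add hq
  | mul_X p i hp =>
    have h : grad (p * X i) x = (eval x p) • ContinuousLinearMap.proj i + (x i) • grad p x := by
      ext w
      rw [ContinuousLinearMap.add_apply, ContinuousLinearMap.smul_apply,
        ContinuousLinearMap.smul_apply, grad_apply, grad_apply, ContinuousLinearMap.proj_apply,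
        smul_eq_mul, smul_eq_mul, Finset.mul_sum]
      have h1 : ∀ j, eval x (pderiv j (p * X i)) * w j =
          (if j = i then eval x p * w j else 0) + x i * (eval x (pderiv j p) * w j) := by
        intro j
        rw [pderiv_mul, map_add, map_mul, map_mul, eval_X, pderiv_X]
        by_cases hj : j = i
        · subst hj
          rw [Pi.single_eq_same, map_one, if_pos rfl]
          ring
        · rw [Pi.single_eq_of_ne (Ne.symm hj), map_zero, if_neg hj]
          ring
      simp only [h1]
      rw [Finset.sum_add_distrib, Finset.sum_ite_eq' Finset.univ i]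
      simp
    rw [h]
    simp only [map_mul, eval_X]
    exact hp.mul (ContinuousLinearMap.proj (R := L) (φ := fun _ : ι => L) i).hasStrictFDerivAt

theorem continuous_eval' (p : MvPolynomial ι L) : Continuous fun y : ι → L => eval y p :=
  continuous_iff_continuousAt.2 fun x => (hasStrictFDerivAt_eval p x).continuousAt

variable {κ : Type} [Fintype κ]

/-- the two groups of variables -/
noncomputable def join (L : Type) [NontriviallyNormedField L] (κ ι : Type) [Fintype κ]
    [Fintype ι] : ((κ → L) × (ι → L)) →L[L] (κ ⊕ ι → L) :=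
  ContinuousLinearMap.pi fun a => match a with
    | Sum.inl l => (ContinuousLinearMap.proj l).comp (ContinuousLinearMap.fst L _ _)
    | Sum.inr j => (ContinuousLinearMap.proj j).comp (ContinuousLinearMap.snd L _ _)

theorem join_apply (a : (κ → L) × (ι → L)) : join L κ ι a = Sum.elim a.1 a.2 := by
  ext x
  rcases x with l | j <;> rfl

/-- The local theorem for rational families of self-maps. -/
theorem solve_poly [CompleteSpace L] {γ : Type} [Fintype γ] (p : γ → MvPolynomial ι L)
    (P : ι → MvPolynomial (κ ⊕ ι) L) (D : MvPolynomial (κ ⊕ ι) L) (t₀ : κ → L) (T : ι → L)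
    (hD : eval (Sum.elim t₀ T) D ≠ 0)
    (hfix : ∀ j, eval (Sum.elim t₀ T) (P j) = T j * eval (Sum.elim t₀ T) D)
    (hsm : ∀ z : γ → L, ∃ w : ι → L, ∀ i, ∑ j, eval T (pderiv j (p i)) * w j = z i)
    (hspan : ∀ w : ι → L, (∀ i, ∑ j, eval T (pderiv j (p i)) * w j = 0) →
      ∃ τ : κ → L, ∀ j, w j = ∑ l, τ l * (eval (Sum.elim t₀ T) (pderiv (Sum.inl l) (P j)) -
        T j * eval (Sum.elim t₀ T) (pderiv (Sum.inl l) D))) :
    ∃ U ∈ 𝓝 T, ∀ x ∈ U, ∀ y ∈ U, (∀ i, eval y (p i) = 0) →
      (∀ t, eval (Sum.elim t x) D ≠ 0 →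
        ∀ i, eval (fun j => eval (Sum.elim t x) (P j) / eval (Sum.elim t x) D) (p i) = 0) →
      ∃ t, eval (Sum.elim t x) D ≠ 0 ∧
        ∀ j, eval (Sum.elim t x) (P j) / eval (Sum.elim t x) D = y j := by
  classical
  let Φ : (κ → L) × (ι → L) → (ι → L) := fun a j =>
    eval (join L κ ι a) (P j) * (eval (join L κ ι a) D)⁻¹
  have hja : join L κ ι (t₀, T) = Sum.elim t₀ T := join_apply _
  have hD' : eval (join L κ ι (t₀, T)) D ≠ 0 := by rw [hja]; exact hD
  let d := eval (join L κ ι (t₀, T)) D
  let Φ' : (κ → L) × (ι → L) →L[L] (ι → L) := ContinuousLinearMap.pi fun j =>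
    (eval (join L κ ι (t₀, T)) (P j)) •
      ((ContinuousLinearMap.smulRight (1 : L →L[L] L) (-(d ^ 2)⁻¹)).comp
        ((grad D (join L κ ι (t₀, T))).comp (join L κ ι))) +
    d⁻¹ • ((grad (P j) (join L κ ι (t₀, T))).comp (join L κ ι))
  have hΦ : HasStrictFDerivAt Φ Φ' (t₀, T) := by
    rw [hasStrictFDerivAt_pi']
    intro j
    have h1 : HasStrictFDerivAt (fun a => eval (join L κ ι a) (P j))
        ((grad (P j) (join L κ ι (t₀, T))).comp (join L κ ι)) (t₀, T) :=
      (hasStrictFDerivAt_eval (P j) _).comp (t₀, T) (join L κ ι).hasStrictFDerivAt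
    have h2 : HasStrictFDerivAt (fun a => eval (join L κ ι a) D)
        ((grad D (join L κ ι (t₀, T))).comp (join L κ ι)) (t₀, T) :=
      (hasStrictFDerivAt_eval D _).comp (t₀, T) (join L κ ι).hasStrictFDerivAt
    have h3 : HasStrictFDerivAt (fun a => (eval (join L κ ι a) D)⁻¹)
        ((ContinuousLinearMap.smulRight (1 : L →L[L] L) (-(d ^ 2)⁻¹)).comp
          ((grad D (join L κ ι (t₀, T))).comp (join L κ ι))) (t₀, T) :=
      (hasStrictFDerivAt_inv hD').comp (t₀, T) h2
    have h4 := h1.mul h3
    exact h4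
  have hT : Φ (t₀, T) = T := by
    funext j
    change eval (join L κ ι (t₀, T)) (P j) * (eval (join L κ ι (t₀, T)) D)⁻¹ = T j
    rw [hja, hfix, mul_assoc, mul_inv_cancel₀ hD, mul_one]
  let pm : (ι → L) → (γ → L) := fun y i => eval y (p i)
  let J : (ι → L) →L[L] (γ → L) := ContinuousLinearMap.pi fun i => grad (p i) T
  have hp : HasStrictFDerivAt pm J T := by
    rw [hasStrictFDerivAt_pi']
    intro i
    exact hasStrictFDerivAt_eval (p i) T
  have hJ : ∀ w i, J w i = ∑ j, eval T (pderiv j (p i)) * w j := fun w i => grad_apply _ _ _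
  have hJs : Function.Surjective J := by
    intro z
    obtain ⟨w, hw⟩ := hsm z
    exact ⟨w, funext fun i => by rw [hJ, hw i]⟩
  obtain ⟨s0, hs0⟩ := LinearMap.exists_rightInverse_of_surjective (J : (ι → L) →ₗ[L] (γ → L))
    (LinearMap.range_eq_top.2 hJs)
  let s : (γ → L) →L[L] (ι → L) := LinearMap.toContinuousLinearMap s0
  have hs : ∀ r, J (s r) = r := fun r => by
    have := congrArg (fun f : (γ → L) →ₗ[L] (γ → L) => f r) hs0
    exact this
  have hsp : ∀ w, J w = 0 → ∃ τ, Φ' (τ, 0) = w := by
    intro w hw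
    obtain ⟨τ, hτ⟩ := hspan w fun i => by
      rw [← hJ, hw]
      rfl
    refine ⟨d • τ, ?_⟩
    have hd0 : d ≠ 0 := hD'
    have hj : ∀ q : MvPolynomial (κ ⊕ ι) L, grad q (join L κ ι (t₀, T)) (join L κ ι (d • τ, 0)) =
        ∑ l, eval (Sum.elim t₀ T) (pderiv (Sum.inl l) q) * (d * τ l) := by
      intro q
      rw [grad_apply, Fintype.sum_sum_type, hja, join_apply]
      simp
    funext j
    change (eval (join L κ ι (t₀, T)) (P j)) *
      ((grad D (join L κ ι (t₀, T)) (join L κ ι (d • τ, 0))) * (-(d ^ 2)⁻¹)) +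
      d⁻¹ * (grad (P j) (join L κ ι (t₀, T)) (join L κ ι (d • τ, 0))) = w j
    rw [hj, hj, hτ j, hja, hfix j, Finset.sum_mul, Finset.mul_sum, Finset.mul_sum,
      ← Finset.sum_add_distrib]
    refine Finset.sum_congr rfl fun l _ => ?_
    have hdd : eval (Sum.elim t₀ T) D = d := by rw [← hja]
    rw [hdd]
    field_simp
    ring
  have hcont : Continuous fun a : (κ → L) × (ι → L) => eval (join L κ ι a) D :=
    (continuous_eval' D).comp (join L κ ι).continuous
  obtain ⟨U, hU, h⟩ := solve Φ Φ' t₀ T hΦ hT pm J hp s hs hsp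
    {a | eval (join L κ ι a) D ≠ 0} (hcont.continuousAt.eventually_ne hD')
  refine ⟨U, hU, fun x hx y hy hpy hpres => ?_⟩
  obtain ⟨t, ht, hty⟩ := h x hx y hy (funext hpy) (fun t ht => funext fun i => by
    have ht' : eval (join L κ ι (t, x)) D ≠ 0 := ht
    rw [join_apply] at ht'
    have h1 := hpres t ht' i
    change eval (fun j => eval (join L κ ι (t, x)) (P j) * (eval (join L κ ι (t, x)) D)⁻¹) (p i) = 0
    rw [join_apply]
    simpa only [div_eq_mul_inv] using h1)
  have ht' : eval (join L κ ι (t, x)) D ≠ 0 := ht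
  rw [join_apply] at ht'
  refine ⟨t, ht', fun j => ?_⟩
  have h1 := congrFun hty j
  change eval (join L κ ι (t, x)) (P j) * (eval (join L κ ι (t, x)) D)⁻¹ = y j at h1
  rw [join_apply] at h1
  rw [div_eq_mul_inv]
  exact h1

end

end Pool.Agent.R70.OC
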