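import Mathlib
import Pool.Agent.R70.OC.Poly

/-! The closure of the rational points is open at the points where a rational family of self-maps is
submersive (helper70). -/

set_option autoImplicit false

open Filter Topology MvPolynomial

namespace Pool.Agent.R70.OC

section defs

variable {K : Type} [Field K] {N c : ℕ}

/-- The point `x` with coordinates in the extension `L` of `K` lies on the variety
`X = {p = 0, g ≠ 0}`. -/
def OnX (p : Fin c → MvPolynomial (Fin N) K) (g : MvPolynomial (Fin N) K) {L : Type} [Field L]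
    (φ : K →+* L) (x : Fin N → L) : Prop :=
  (∀ i, eval₂ φ x (p i) = 0) ∧ eval₂ φ x g ≠ 0

/-- A rational family of self-maps `Φ(t, x) = P(t, x) / D(t, x)` of `X = {p = 0, g ≠ 0}`, defined
over `K`, with `m` parameters `t`: the map is defined for `D(t, x) ≠ 0`, and maps the points of `X`
(over all extensions of `K`) to points of `{p = 0}`. -/
structure Family (p : Fin c → MvPolynomial (Fin N) K) (g : MvPolynomial (Fin N) K) (m : ℕ) where
  P : Fin N → MvPolynomial (Fin m ⊕ Fin N) K
  D : MvPolynomial (Fin m ⊕ Fin N) K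
  maps : ∀ (L : Type) [Field L] (φ : K →+* L) (t : Fin m → L) (x : Fin N → L), OnX p g φ x →
    eval₂ φ (Sum.elim t x) D ≠ 0 → ∀ i, eval₂ φ (fun j => eval₂ φ (Sum.elim t x) (P j) /
      eval₂ φ (Sum.elim t x) D) (p i) = 0

/-- The Jacobian matrix of the equations `p` at the point `T` has rank `c`. -/
def SmoothAt (p : Fin c → MvPolynomial (Fin N) K) {L : Type} [Field L] (φ : K →+* L)
    (T : Fin N → L) : Prop :=
  ∀ z : Fin c → L, ∃ w : Fin N → L, ∀ i, ∑ j, eval₂ φ T (pderiv j (p i)) * w j = z i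

/-- For some value `t` of the parameters, the self-map `Φ(t, ·)` is defined at `T` and fixes `T`,
and the map `Φ(·, T)` is submersive at `t`: every tangent vector `w` of `X` at `T` is a linear
combination of the derivatives of `Φ(·, T)` at `t`. (The derivative of `P_j / D` with respect to
`t_l` at such a point is `(∂P_j/∂t_l - T_j ∂D/∂t_l) / D`.) -/
def Family.SubmersiveAt {p : Fin c → MvPolynomial (Fin N) K} {g : MvPolynomial (Fin N) K} {m : ℕ}
    (F : Family p g m) {L : Type} [Field L] (φ : K →+* L) (T : Fin N → L) : Prop :=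
  ∃ t : Fin m → L, eval₂ φ (Sum.elim t T) F.D ≠ 0 ∧
    (∀ j, eval₂ φ (Sum.elim t T) (F.P j) = T j * eval₂ φ (Sum.elim t T) F.D) ∧
    ∀ w : Fin N → L, (∀ i, ∑ j, eval₂ φ T (pderiv j (p i)) * w j = 0) →
      ∃ τ : Fin m → L, ∀ j, w j = ∑ l, τ l *
        (eval₂ φ (Sum.elim t T) (pderiv (Sum.inl l) (F.P j)) -
          T j * eval₂ φ (Sum.elim t T) (pderiv (Sum.inl l) F.D))

/-- The diagonal image of `X(K)` in the product of the `L v`-points. -/
def image (p : Fin c → MvPolynomial (Fin N) K) (g : MvPolynomial (Fin N) K) {ι : Type}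
    {L : ι → Type} [∀ v, Field (L v)] (σ : ∀ v, K →+* L v) : Set (∀ v, Fin N → L v) :=
  {S | ∃ x : Fin N → K, OnX p g (RingHom.id K) x ∧ S = fun v j => σ v (x j)}

end defs

section

variable {K : Type} [Field K] {N c : ℕ}

theorem ev {σ' : Type} {L : Type} [Field L] (φ : K →+* L) (x : σ' → L) (q : MvPolynomial σ' K) :
    eval₂ φ x q = eval x (map φ q) := by
  rw [eval_map]

theorem ev_pd {σ' : Type} {L : Type} [Field L] (φ : K →+* L) (x : σ' → L)
    (q : MvPolynomial σ' K) (i : σ') :
    eval₂ φ x (pderiv i q) = eval x (pderiv i (map φ q)) := by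
  rw [ev, pderiv_map]

theorem ev_comp {σ' : Type} {L : Type} [Field L] (φ : K →+* L) (x : σ' → K)
    (q : MvPolynomial σ' K) :
    φ (eval₂ (RingHom.id K) x q) = eval₂ φ (fun j => φ (x j)) q := by
  rw [hom_eval₂, RingHom.comp_id]

theorem one_place {p : Fin c → MvPolynomial (Fin N) K} {g : MvPolynomial (Fin N) K} {m : ℕ}
    (F : Family p g m) {L : Type} [NontriviallyNormedField L] [CompleteSpace L] (φ : K →+* L)
    (T : Fin N → L) (hs : SmoothAt p φ T) (hF : F.SubmersiveAt φ T) :
    ∃ U ∈ 𝓝 T, ∀ x ∈ U, ∀ y ∈ U, OnX p g φ x → (∀ i, eval₂ φ y (p i) = 0) →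
      ∃ t, eval₂ φ (Sum.elim t x) F.D ≠ 0 ∧
        ∀ j, eval₂ φ (Sum.elim t x) (F.P j) / eval₂ φ (Sum.elim t x) F.D = y j := by
  obtain ⟨t₀, hD, hfix, hspan⟩ := hF
  obtain ⟨U, hU, h⟩ := solve_poly (fun i => map φ (p i)) (fun j => map φ (F.P j)) (map φ F.D)
    t₀ T (by rw [← ev]; exact hD) (fun j => by rw [← ev, ← ev]; exact hfix j)
    (fun z => by
      obtain ⟨w, hw⟩ := hs z
      refine ⟨w, fun i => ?_⟩
      rw [← hw i]
      exact Finset.sum_congr rfl fun j _ => by rw [ev_pd])
    (fun w hw => by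
      obtain ⟨τ, hτ⟩ := hspan w fun i => by
        rw [← hw i]
        exact Finset.sum_congr rfl fun j _ => by rw [ev_pd]
      refine ⟨τ, fun j => ?_⟩
      rw [hτ j]
      exact Finset.sum_congr rfl fun l _ => by rw [ev_pd, ev_pd])
  refine ⟨U, hU, fun x hx y hy hxX hyp => ?_⟩
  obtain ⟨t, h1, h2⟩ := h x hx y hy (fun i => by rw [← ev]; exact hyp i) (fun t ht i => by
    rw [← ev] at ht
    have h3 := F.maps L φ t x hxX ht i
    rw [ev] at h3
    simp only [ev] at h3
    exact h3)
  refine ⟨t, by rw [ev]; exact h1, fun j => ?_⟩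
  rw [ev, ev]
  exact h2 j

theorem open_closure {p : Fin c → MvPolynomial (Fin N) K} {g : MvPolynomial (Fin N) K} {m : ℕ}
    (F : Family p g m) {ι : Type} [Finite ι] {L : ι → Type} [∀ v, NontriviallyNormedField (L v)]
    [∀ v, CompleteSpace (L v)] (σ : ∀ v, K →+* L v)
    (hσ : DenseRange fun (a : K) (v : ι) => σ v a) (T : ∀ v, Fin N → L v)
    (hT : T ∈ closure (image p g σ)) (hg : ∀ v, eval₂ (σ v) (T v) g ≠ 0)
    (hs : ∀ v, SmoothAt p (σ v) (T v)) (hF : ∀ v, F.SubmersiveAt (σ v) (T v)) :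
    ∃ U ∈ 𝓝 T, ∀ S ∈ U, (∀ v i, eval₂ (σ v) (S v) (p i) = 0) → S ∈ closure (image p g σ) := by
  classical
  have : Fintype ι := Fintype.ofFinite ι
  rcases isEmpty_or_nonempty ι with hι | hι
  · refine ⟨Set.univ, univ_mem, fun S _ _ => ?_⟩
    have : S = T := Subsingleton.elim _ _
    rwa [this]
  choose U hU h using fun v => one_place F (σ v) (T v) (hs v) (hF v)
  have hgc : ∀ v, Continuous fun y : Fin N → L v => eval₂ (σ v) y g := by
    intro v
    simp only [ev]
    exact continuous_eval' _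
  let V : Set (∀ v, Fin N → L v) := Set.univ.pi fun v => U v ∩ {y | eval₂ (σ v) y g ≠ 0}
  have hV : V ∈ 𝓝 T := by
    refine set_pi_mem_nhds Set.finite_univ fun v _ => Filter.inter_mem (hU v) ?_
    exact (hgc v).continuousAt.eventually_ne (hg v)
  refine ⟨V, hV, fun S hS hSp => ?_⟩
  rw [mem_closure_iff_nhds]
  intro O hO
  -- a rational point near `T`
  obtain ⟨_, hxV, x, hx, rfl⟩ := mem_closure_iff_nhds.1 hT V hV
  have hxL : ∀ v, OnX p g (σ v) fun j => σ v (x j) := by
    intro v
    refine ⟨fun i => ?_, ?_⟩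
    · rw [← ev_comp, hx.1 i, map_zero]
    · rw [← ev_comp]
      exact (map_ne_zero (σ v)).2 hx.2
  choose t ht hty using fun v => h v _ (hxV v trivial).1 (S v) (hS v trivial).1 (hxL v) (hSp v)
  -- approximation of the parameters
  let R : (∀ v, Fin m → L v) → (∀ v, Fin N → L v) := fun t v j =>
    eval₂ (σ v) (Sum.elim (t v) fun j => σ v (x j)) (F.P j) /
      eval₂ (σ v) (Sum.elim (t v) fun j => σ v (x j)) F.D
  have hce : ∀ (v : ι) (q : MvPolynomial (Fin m ⊕ Fin N) K), Continuous fun t : ∀ v, Fin m → L v =>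
      eval₂ (σ v) (Sum.elim (t v) fun j => σ v (x j)) q := by
    intro v q
    simp only [ev]
    refine (continuous_eval' _).comp ?_
    refine continuous_pi fun a => ?_
    rcases a with l | j
    · exact (continuous_apply l).comp (continuous_apply v)
    · exact continuous_const
  have hRS : R t = S := funext fun v => funext fun j => hty v j
  have hR : ContinuousAt R t := by
    refine continuousAt_pi.2 fun v => continuousAt_pi.2 fun j => ?_
    exact ((hce v (F.P j)).continuousAt).div (hce v F.D).continuousAt (ht v)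
  have hSg : {S' : ∀ v, Fin N → L v | ∀ v, eval₂ (σ v) (S' v) g ≠ 0} ∈ 𝓝 S := by
    have h1 : (Set.univ.pi fun v => {y : Fin N → L v | eval₂ (σ v) y g ≠ 0}) ∈ 𝓝 S := by
      refine set_pi_mem_nhds Set.finite_univ fun v _ => ?_
      exact (hgc v).continuousAt.eventually_ne (hS v trivial).2
    filter_upwards [h1] with S' hS' v
    exact hS' v trivial
  have hO' : R ⁻¹' (O ∩ {S' | ∀ v, eval₂ (σ v) (S' v) g ≠ 0}) ∈ 𝓝 t := by
    apply hR
    rw [hRS]
    exact Filter.inter_mem hO hSg
  have hDn : {t' : ∀ v, Fin m → L v | ∀ v,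
      eval₂ (σ v) (Sum.elim (t' v) fun j => σ v (x j)) F.D ≠ 0} ∈ 𝓝 t := by
    rw [Set.setOf_forall]
    refine (Filter.iInter_mem).2 fun v => ?_
    exact (hce v F.D).continuousAt.eventually_ne (ht v)
  have hdense : DenseRange fun (a : Fin m → K) (v : ι) (l : Fin m) => σ v (a l) := by
    have h1 : DenseRange (Pi.map fun (_ : Fin m) (a : K) (v : ι) => σ v a) :=
      DenseRange.piMap fun _ => hσ
    have h2 : Continuous fun (b : Fin m → ∀ v, L v) (v : ι) (l : Fin m) => b l v :=
      continuous_pi fun v => continuous_pi fun l => (continuous_apply v).comp (continuous_apply l)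
    have h3 : Function.Surjective fun (b : Fin m → ∀ v, L v) (v : ι) (l : Fin m) => b l v :=
      fun b => ⟨fun l v => b v l, rfl⟩
    exact h3.denseRange.comp h1 h2
  obtain ⟨_, ⟨hb1, hb2⟩, a, rfl⟩ := (mem_closure_iff_nhds.1 (hdense t))
    _ (Filter.inter_mem hO' hDn)
  -- the rational point
  have hDa : eval₂ (RingHom.id K) (Sum.elim a x) F.D ≠ 0 := by
    obtain ⟨v⟩ := hι
    intro h0
    have h1 := hb2 v
    have h2 := ev_comp (σ v) (Sum.elim a x) F.D
    rw [h0, map_zero] at h2
    apply h1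
    rw [h2]
    congr 1
    funext s
    rcases s with l | j <;> rfl
  have hcomp : ∀ v (q : MvPolynomial (Fin m ⊕ Fin N) K),
      eval₂ (σ v) (Sum.elim (fun l => σ v (a l)) fun j => σ v (x j)) q =
        σ v (eval₂ (RingHom.id K) (Sum.elim a x) q) := by
    intro v q
    rw [ev_comp]
    congr 1
    funext s
    rcases s with l | j <;> rfl
  let y : Fin N → K := fun j => eval₂ (RingHom.id K) (Sum.elim a x) (F.P j) /
    eval₂ (RingHom.id K) (Sum.elim a x) F.D
  have hRy : R (fun v l => σ v (a l)) = fun v j => σ v (y j) := by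
    funext v j
    change eval₂ (σ v) (Sum.elim (fun l => σ v (a l)) fun j => σ v (x j)) (F.P j) /
      eval₂ (σ v) (Sum.elim (fun l => σ v (a l)) fun j => σ v (x j)) F.D = _
    rw [hcomp, hcomp, ← map_div₀]
  refine ⟨fun v j => σ v (y j), ?_, y, ⟨F.maps K (RingHom.id K) a x hx hDa, ?_⟩, rfl⟩
  · have := hb1.1
    rwa [hRy] at this
  · obtain ⟨v⟩ := hι
    have h1 := hb1.2 v
    rw [hRy] at h1
    intro h0
    apply h1
    rw [← ev_comp, h0, map_zero]

end

end Pool.Agent.R70.OC
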