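import Mathlib
import Pool.Agent.R70.OC.Main
import Pool.Agent.TH729.SQ.Values

/-! The closure of the rational points is semialgebraic at the points where a rational family of
self-maps is submersive (helper70). -/

set_option autoImplicit false

open Filter Topology MvPolynomial
open Pool.Agent.H581R2 Pool.Agent.TH729.SQ

namespace Pool.Agent.R70.OC

section

variable {N c : ℕ}

/-- The set of the real points of `X = {p = 0, g ≠ 0}` at which `p` has maximal rank and one of the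
families is submersive. -/
def Good (p : Fin c → MvPolynomial (Fin N) ℚ) (g : MvPolynomial (Fin N) ℚ) {q : ℕ}
    {m : Fin q → ℕ} (F : ∀ k, Family p g (m k)) : Set (Fin N → ℝ) :=
  {T | OnX p g (algebraMap ℚ ℝ) T ∧ SmoothAt p (algebraMap ℚ ℝ) T ∧
    ∃ k, (F k).SubmersiveAt (algebraMap ℚ ℝ) T}

theorem pf_at {ι κ : Type} (q : MvPolynomial κ ℚ) (f : κ → ι) :
    PF (fun u : ι → ℝ => eval₂ (algebraMap ℚ ℝ) (fun j => u (f j)) q) :=
  (PF.aeval q).comp (φ := fun (u : ι → ℝ) j => u (f j)) (fun _ => PF.coord _)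

theorem sa_onX (p : Fin c → MvPolynomial (Fin N) ℚ) (g : MvPolynomial (Fin N) ℚ) :
    SAP (fun T : Fin N → ℝ => OnX p g (algebraMap ℚ ℝ) T) :=
  SAP.and (SAP.forall_fin fun i => SAP.eq_zero (pf_at (p i) fun j => j))
    (SAP.not (SAP.eq_zero (pf_at g fun j => j)))

theorem sa_smooth (p : Fin c → MvPolynomial (Fin N) ℚ) :
    SAP (fun T : Fin N → ℝ => SmoothAt p (algebraMap ℚ ℝ) T) := by
  have h1 : SAP (fun u : Fin N ⊕ (Fin c ⊕ Fin N) → ℝ => ∀ i, ∑ j,
      eval₂ (algebraMap ℚ ℝ) (fun a => u (Sum.inr (Sum.inr a))) (pderiv j (p i)) * u (Sum.inl j) =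
        u (Sum.inr (Sum.inl i))) :=
    SAP.forall_fin fun i => SAP.eq (PF.sum Finset.univ fun j _ =>
      (pf_at (pderiv j (p i)) fun a => Sum.inr (Sum.inr a)).mul (PF.coord _)) (PF.coord _)
  have h2 := SAP.exists_fun (Fin N) (Fin c ⊕ Fin N) _ h1
  have h3 := SAP.not (SAP.exists_fun (Fin c) (Fin N) _ (SAP.not h2))
  refine SAP.congr h3 fun T => ?_
  rw [not_exists]
  refine forall_congr' fun z => ?_
  rw [not_not]
  exact Iff.rfl

theorem sa_sub {p : Fin c → MvPolynomial (Fin N) ℚ} {g : MvPolynomial (Fin N) ℚ} {m : ℕ}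
    (F : Family p g m) :
    SAP (fun T : Fin N → ℝ => F.SubmersiveAt (algebraMap ℚ ℝ) T) := by
  -- the variables `τ`, `w`, `t`, `T`
  let f : Fin m ⊕ Fin N → Fin m ⊕ (Fin N ⊕ (Fin m ⊕ Fin N)) := fun s => Sum.inr (Sum.inr s)
  have h1 : SAP (fun u : Fin m ⊕ (Fin N ⊕ (Fin m ⊕ Fin N)) → ℝ => ∀ j, u (Sum.inr (Sum.inl j)) =
      ∑ l, u (Sum.inl l) *
        (eval₂ (algebraMap ℚ ℝ) (fun s => u (f s)) (pderiv (Sum.inl l) (F.P j)) -
          u (f (Sum.inr j)) * eval₂ (algebraMap ℚ ℝ) (fun s => u (f s))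
            (pderiv (Sum.inl l) F.D))) :=
    SAP.forall_fin fun j => SAP.eq (PF.coord _) (PF.sum Finset.univ fun l _ =>
      (PF.coord _).mul ((pf_at _ f).sub ((PF.coord _).mul (pf_at _ f))))
  have h2 := SAP.exists_fun (Fin m) (Fin N ⊕ (Fin m ⊕ Fin N)) _ h1
  have h3 : SAP (fun u : Fin N ⊕ (Fin m ⊕ Fin N) → ℝ => ∀ i, ∑ j,
      eval₂ (algebraMap ℚ ℝ) (fun a => u (Sum.inr (Sum.inr a))) (pderiv j (p i)) *
        u (Sum.inl j) = 0) :=
    SAP.forall_fin fun i => SAP.eq_zero (PF.sum Finset.univ fun j _ =>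
      (pf_at (pderiv j (p i)) fun a => Sum.inr (Sum.inr a)).mul (PF.coord _))
  have h4 := SAP.not (SAP.exists_fun (Fin N) (Fin m ⊕ Fin N) _ (SAP.not (SAP.imp h3 h2)))
  have h5 : SAP (fun u : Fin m ⊕ Fin N → ℝ => eval₂ (algebraMap ℚ ℝ) (fun s => u s) F.D ≠ 0 ∧
      ∀ j, eval₂ (algebraMap ℚ ℝ) (fun s => u s) (F.P j) =
        u (Sum.inr j) * eval₂ (algebraMap ℚ ℝ) (fun s => u s) F.D) :=
    SAP.and (SAP.not (SAP.eq_zero (pf_at F.D fun s => s)))
      (SAP.forall_fin fun j => SAP.eq (pf_at (F.P j) fun s => s)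
        ((PF.coord _).mul (pf_at F.D fun s => s)))
  have h6 := SAP.exists_fun (Fin m) (Fin N) _ (SAP.and h5 h4)
  refine SAP.congr h6 fun T => ?_
  refine exists_congr fun t => ?_
  have h7 : (fun s => (Sum.elim t T : Fin m ⊕ Fin N → ℝ) s) = Sum.elim t T := rfl
  rw [not_exists, and_assoc]
  refine and_congr Iff.rfl (and_congr Iff.rfl ?_)
  refine forall_congr' fun w => ?_
  rw [not_not]
  exact Iff.rfl

theorem sa_good (p : Fin c → MvPolynomial (Fin N) ℚ) (g : MvPolynomial (Fin N) ℚ) {q : ℕ}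
    {m : Fin q → ℕ} (F : ∀ k, Family p g (m k)) : SA (Good p g F) :=
  SAP.and (sa_onX p g) (SAP.and (sa_smooth p) (SAP.exists_fin fun k => sa_sub (F k)))

/-- the rational points as real points -/
def ratPts (p : Fin c → MvPolynomial (Fin N) ℚ) (g : MvPolynomial (Fin N) ℚ) :
    Set (Fin N → ℝ) :=
  {T | ∃ x : Fin N → ℚ, OnX p g (RingHom.id ℚ) x ∧ T = fun j => (x j : ℝ)}

theorem mem_closure_unit (p : Fin c → MvPolynomial (Fin N) ℚ) (g : MvPolynomial (Fin N) ℚ)
    (T : Fin N → ℝ) : T ∈ closure (ratPts p g) ↔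
      (fun _ : Unit => T) ∈ closure (image p g (L := fun _ : Unit => ℝ)
        (fun _ => algebraMap ℚ ℝ)) := by
  constructor
  · intro h
    have hc : Continuous fun (x : Fin N → ℝ) (_ : Unit) => x := continuous_pi fun _ => continuous_id
    refine map_mem_closure hc h ?_
    rintro _ ⟨x, hx, rfl⟩
    exact ⟨x, hx, rfl⟩
  · intro h
    have hc : Continuous fun (P : Unit → Fin N → ℝ) => P () := continuous_apply ()
    refine map_mem_closure hc h ?_
    rintro _ ⟨x, hx, rfl⟩
    exact ⟨x, hx, rfl⟩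

theorem open_real {p : Fin c → MvPolynomial (Fin N) ℚ} {g : MvPolynomial (Fin N) ℚ} {q : ℕ}
    {m : Fin q → ℕ} (F : ∀ k, Family p g (m k)) {T : Fin N → ℝ} (hT : T ∈ Good p g F)
    (hcl : T ∈ closure (ratPts p g)) :
    ∃ U ∈ 𝓝 T, ∀ S ∈ U, OnX p g (algebraMap ℚ ℝ) S → S ∈ closure (ratPts p g) := by
  obtain ⟨hX, hs, k, hk⟩ := hT
  have hd : DenseRange fun (a : ℚ) (_ : Unit) => algebraMap ℚ ℝ a := by
    have h1 : DenseRange (algebraMap ℚ ℝ) := Rat.denseRange_cast
    exact DenseRange.comp (f := algebraMap ℚ ℝ) (g := fun (x : ℝ) (_ : Unit) => x)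
      (Function.Surjective.denseRange fun P => ⟨P (), rfl⟩) h1 (continuous_pi fun _ => continuous_id)
  obtain ⟨U, hU, h⟩ := open_closure (F k) (L := fun _ : Unit => ℝ) (fun _ => algebraMap ℚ ℝ) hd
    (fun _ => T) ((mem_closure_unit p g T).1 hcl) (fun _ => hX.2) (fun _ => hs) (fun _ => hk)
  have hc : Continuous fun (x : Fin N → ℝ) (_ : Unit) => x := continuous_pi fun _ => continuous_id
  refine ⟨_, hc.continuousAt hU, fun S hS hSX => ?_⟩
  rw [mem_closure_unit]
  exact h _ hS fun _ => hSX.1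

/-- the closure is semialgebraic in the good set -/
theorem sa_inter (p : Fin c → MvPolynomial (Fin N) ℚ) (g : MvPolynomial (Fin N) ℚ) {q : ℕ}
    {m : Fin q → ℕ} (F : ∀ k, Family p g (m k)) :
    SA (closure (ratPts p g) ∩ Good p g F) := by
  set D := closure (ratPts p g) with hD
  refine sa_of_lc _ (Good p g F) (D ∩ Good p g F) (sa_good p g F) Set.inter_subset_right ?_
  refine LC.of_clopen (O := interior {x | x ∈ Good p g F → x ∈ D}) (C := D) isOpen_interior
    isClosed_closure ?_ ?_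
  · intro x hx
    constructor
    · rintro ⟨hxD, -⟩
      obtain ⟨U, hU, h⟩ := open_real F hx hxD
      rw [mem_interior_iff_mem_nhds]
      filter_upwards [hU] with z hz hzV
      exact h z hz hzV.1
    · intro h
      exact ⟨interior_subset h hx, hx⟩
  · intro x hx
    exact ⟨fun h => h.1, fun h => ⟨h, hx⟩⟩

/-- the closure is semialgebraic, if the closure of the set of the bad points is -/
theorem sa_closure (p : Fin c → MvPolynomial (Fin N) ℚ) (g : MvPolynomial (Fin N) ℚ) {q : ℕ}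
    {m : Fin q → ℕ} (F : ∀ k, Family p g (m k))
    (hbad : SA (closure (ratPts p g \ Good p g F))) : SA (closure (ratPts p g)) := by
  have h1 : closure (ratPts p g) =
      closure (closure (ratPts p g) ∩ Good p g F) ∪ closure (ratPts p g \ Good p g F) := by
    apply Set.Subset.antisymm
    · rw [← closure_union]
      apply closure_mono
      intro x hx
      by_cases h : x ∈ Good p g F
      · exact Or.inl ⟨subset_closure hx, h⟩
      · exact Or.inr ⟨hx, h⟩
    · refine Set.union_subset (closure_minimal Set.inter_subset_left isClosed_closure)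
        (closure_mono Set.diff_subset)
  rw [h1]
  exact SA.union (SA.closure (sa_inter p g F)) hbad

end

end Pool.Agent.R70.OC
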